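import Mathlib

set_option autoImplicit false

/-!
# Perfect images of weakly θ-refinable spaces are weakly θ-refinable

Positive answer to Q2 of MP_55e6a3_gt, without separation axioms.

Sketch. Let `f : X → Y` be perfect and let `U` be an open cover of `Y`. From an open refinement of
`f⁻¹ U` as in the definition we get countably many sets `G n` covering `X` and maps `lam n`
with values in the cover, locally constant on `G n`, with `x ∈ lam n x` for `x ∈ G n`. For a closed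
set `B` and a set `C` of points `y` whose fibres meet `B`, let `n y` be the least `n` such that
`B ∩ G n` meets the fibre of `y`, let `x y` be a point of the intersection, and let `B' n` be the
closed set of the points of `X` all of whose neighbourhoods contain points `x y`, `n y = n`,
with different values of `lam n`. It is disjoint from `G n`. The points `y` with
`n y = n` whose fibre does not meet `B' n` are harmless: near such a point `lam n (x y)` takes only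
finitely many values. The other points are treated in the same way with `B' n` in place of `B`.
The recursion stops after finitely many steps at every point `y`: otherwise a point `z` of the
fibre of `y` belongs to all the sets `B`, it belongs to some `G m`, and all the numbers `n y`
which occur are at most `m`, and they are pairwise distinct.
-/

namespace Pool.Agent.Results.MP_55e6a3_gt.PerfectImage

open Set Topology

universe u v w

/-- A space is weakly theta-refinable if every open cover `U` has an open refinement which is a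
union of countably many families `V n` such that every point `x` lies in at least one and only
finitely many members of some `V n`. -/
def WeaklyThetaRefinable (X : Type u) [TopologicalSpace X] : Prop :=
  ∀ U : Set (Set X), (∀ u ∈ U, IsOpen u) → ⋃₀ U = Set.univ →
    ∃ V : ℕ → Set (Set X), (∀ n, ∀ v ∈ V n, IsOpen v ∧ ∃ u ∈ U, v ⊆ u) ∧
      ∀ x, ∃ n, {v | v ∈ V n ∧ x ∈ v}.Nonempty ∧ {v | v ∈ V n ∧ x ∈ v}.Finite

/-- `lam` is locally constant on the subset `G`. -/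
def LC {X : Type u} {L : Type v} [TopologicalSpace X] (G : Set X) (lam : X → L) : Prop :=
  ∀ x ∈ G, ∃ O : Set X, IsOpen O ∧ x ∈ O ∧ ∀ x' ∈ O, x' ∈ G → lam x' = lam x

theorem exists_labels {X : Type u} [TopologicalSpace X] (hX : WeaklyThetaRefinable X)
    (U : Set (Set X)) (hU : ∀ u ∈ U, IsOpen u) (hcov : ⋃₀ U = univ) :
    ∃ (G : ℕ → Set X) (lam : ℕ → X → Set X), (∀ x, ∃ n, x ∈ G n) ∧
      (∀ n, ∀ x ∈ G n, lam n x ∈ U ∧ x ∈ lam n x) ∧ ∀ n, LC (G n) (lam n) := by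
  classical
  obtain ⟨V, hV, hx⟩ := hX U hU hcov
  obtain ⟨lab, hlab⟩ : ∃ lab : ℕ → X → Set (Set X), ∀ n x, lab n x = {v | v ∈ V n ∧ x ∈ v} :=
    ⟨_, fun _ _ => rfl⟩
  have hch : ∀ F : Set (Set X), ∃ u : Set X,
      (∃ u ∈ U, ∃ v ∈ F, v ⊆ u) → u ∈ U ∧ ∃ v ∈ F, v ⊆ u := by
    intro F
    by_cases h : ∃ u ∈ U, ∃ v ∈ F, v ⊆ u
    · obtain ⟨u, hu, hv⟩ := h
      exact ⟨u, fun _ => ⟨hu, hv⟩⟩
    · exact ⟨∅, fun h' => absurd h' h⟩
  choose c hc using hch
  refine ⟨fun m => {x | (lab m.unpair.1 x).Nonempty ∧ (lab m.unpair.1 x).Finite ∧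
    (lab m.unpair.1 x).ncard = m.unpair.2}, fun m x => c (lab m.unpair.1 x), ?_, ?_, ?_⟩
  · intro x
    obtain ⟨n, h1, h2⟩ := hx x
    rw [← hlab] at h1 h2
    refine ⟨Nat.pair n (lab n x).ncard, ?_⟩
    show (lab _ x).Nonempty ∧ (lab _ x).Finite ∧ (lab _ x).ncard = _
    rw [Nat.unpair_pair]
    exact ⟨h1, h2, rfl⟩
  · rintro m x ⟨h1, h2, h3⟩
    obtain ⟨v, hv⟩ := h1
    have hv' := hv
    rw [hlab] at hv'
    obtain ⟨_, u, hu, hvu⟩ := hV _ v hv'.1
    obtain ⟨h4, v', hv1, hv2⟩ := hc (lab m.unpair.1 x) ⟨u, hu, v, hv, hvu⟩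
    refine ⟨h4, hv2 ?_⟩
    rw [hlab] at hv1
    exact hv1.2
  · rintro m x ⟨h1, h2, h3⟩
    refine ⟨⋂₀ (lab m.unpair.1 x), ?_, ?_, ?_⟩
    · apply h2.isOpen_sInter
      intro v hv
      rw [hlab] at hv
      exact (hV _ v hv.1).1
    · intro v hv
      rw [hlab] at hv
      exact hv.2
    · rintro x' hx' ⟨g1, g2, g3⟩
      have hsub : lab m.unpair.1 x ⊆ lab m.unpair.1 x' := by
        intro v hv
        have h5 := hx' v hv
        rw [hlab] at hv ⊢
        exact ⟨hv.1, h5⟩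
      have heq : lab m.unpair.1 x = lab m.unpair.1 x' :=
        Set.eq_of_subset_of_ncard_le hsub (by rw [h3, g3]) g2
      show c _ = c _
      rw [heq]

/-- From locally finitely many values to locally constant finite sets of values. -/
theorem refine_labels {Y : Type u} {L : Type v} [TopologicalSpace Y] (D : Set Y) (μ : Y → L)
    (h : ∀ y ∈ D, ∃ W : Set Y, IsOpen W ∧ y ∈ W ∧ (μ '' (D ∩ W)).Finite) :
    ∃ F : Y → Set L, (∀ y ∈ D, (F y).Finite ∧ μ y ∈ F y ∧ F y ⊆ μ '' D) ∧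
      ∀ k : ℕ, LC {y | y ∈ D ∧ (F y).ncard = k} F := by
  classical
  have key : ∀ (y : Y) (W : Set Y), IsOpen W → y ∈ W →
      {l | y ∈ closure {y' | y' ∈ D ∧ μ y' = l}} ⊆ μ '' (D ∩ W) := by
    intro y W hW hy l hl
    obtain ⟨y', h1, h2, h3⟩ := mem_closure_iff.mp hl W hW hy
    exact ⟨y', ⟨h2, h1⟩, h3⟩
  refine ⟨fun y => {l | y ∈ closure {y' | y' ∈ D ∧ μ y' = l}}, ?_, ?_⟩
  · intro y hy
    obtain ⟨W, hW, hyW, hfin⟩ := h y hy
    refine ⟨hfin.subset (key y W hW hyW), subset_closure ⟨hy, rfl⟩, ?_⟩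
    exact (key y W hW hyW).trans (image_mono inter_subset_left)
  · rintro k y ⟨hy, hk⟩
    obtain ⟨W, hW, hyW, hfin⟩ := h y hy
    refine ⟨W ∩ ⋂ l ∈ (μ '' (D ∩ W)) ∩ {l | y ∉ closure {y' | y' ∈ D ∧ μ y' = l}},
      (closure {y' | y' ∈ D ∧ μ y' = l})ᶜ, ?_, ?_, ?_⟩
    · apply hW.inter
      apply (hfin.subset inter_subset_left).isOpen_biInter
      intro l _
      exact isClosed_closure.isOpen_compl
    · refine ⟨hyW, ?_⟩
      rw [mem_iInter₂]
      rintro l ⟨_, hl⟩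
      exact hl
    · rintro y' ⟨hy'1, hy'2⟩ ⟨hy'D, hy'k⟩
      have hsub : {l | y' ∈ closure {y' | y' ∈ D ∧ μ y' = l}} ⊆
          {l | y ∈ closure {y' | y' ∈ D ∧ μ y' = l}} := by
        intro l hl
        by_contra hcon
        have h1 := key y' W hW hy'1 hl
        exact (mem_iInter₂.mp hy'2 l ⟨h1, hcon⟩) hl
      exact Set.eq_of_subset_of_ncard_le hsub (by rw [hy'k, hk])
        (hfin.subset (key y W hW hyW))

/-- Assembling an open refinement from countably many sets with locally constant labels. -/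
theorem of_labels {Y : Type u} {J : Type v} [TopologicalSpace Y] [Countable J] [Nonempty J]
    (U : Set (Set Y)) (hU : ∀ u ∈ U, IsOpen u) (D : J → Set Y) (F : J → Y → Set (Set Y))
    (hcov : ∀ y, ∃ j, y ∈ D j)
    (hF : ∀ j, ∀ y ∈ D j, (F j y).Finite ∧ (∃ u ∈ F j y, y ∈ u) ∧ F j y ⊆ U)
    (hLC : ∀ j, LC (D j) (F j)) :
    ∃ V : ℕ → Set (Set Y), (∀ n, ∀ v ∈ V n, IsOpen v ∧ ∃ u ∈ U, v ⊆ u) ∧
      ∀ x, ∃ n, {v | v ∈ V n ∧ x ∈ v}.Nonempty ∧ {v | v ∈ V n ∧ x ∈ v}.Finite := by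
  classical
  obtain ⟨e, he⟩ := exists_surjective_nat J
  have hch : ∀ (j : J) (y : Y), ∃ O : Set Y, IsOpen O ∧
      (y ∈ D j → y ∈ O ∧ ∀ x' ∈ O, x' ∈ D j → F j x' = F j y) := by
    intro j y
    by_cases hy : y ∈ D j
    · obtain ⟨O, h1, h2, h3⟩ := hLC j y hy
      exact ⟨O, h1, fun _ => ⟨h2, h3⟩⟩
    · exact ⟨∅, isOpen_empty, fun h => absurd h hy⟩
  choose O hO1 hO2 using hch
  -- the open set of a label
  obtain ⟨T, hT⟩ : ∃ T : J → Set (Set Y) → Set Y,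
      ∀ j A, T j A = ⋃ y ∈ {y | y ∈ D j ∧ F j y = A}, O j y := ⟨_, fun _ _ => rfl⟩
  have hTo : ∀ j A, IsOpen (T j A) := by
    intro j A
    rw [hT]
    exact isOpen_biUnion (fun y _ => hO1 j y)
  have hTm : ∀ j A y, y ∈ D j → y ∈ T j A → F j y = A := by
    intro j A y hy h
    rw [hT] at h
    obtain ⟨y', ⟨h1, h2⟩, h3⟩ := mem_iUnion₂.mp h
    rw [← h2]
    exact (hO2 j y' h1).2 y h3 hy
  have hTs : ∀ j y, y ∈ D j → y ∈ T j (F j y) := by
    intro j y hy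
    rw [hT]
    exact mem_iUnion₂.mpr ⟨y, ⟨hy, rfl⟩, (hO2 j y hy).1⟩
  refine ⟨fun n => {v | ∃ A : Set (Set Y), A ⊆ U ∧ ∃ u ∈ A, v = T (e n) A ∩ u}, ?_, ?_⟩
  · rintro n v ⟨A, hA, u, hu, rfl⟩
    exact ⟨(hTo _ _).inter (hU u (hA hu)), u, hA hu, inter_subset_right⟩
  · intro y
    obtain ⟨j, hj⟩ := hcov y
    obtain ⟨n, rfl⟩ := he j
    obtain ⟨h1, ⟨u, hu, hyu⟩, h3⟩ := hF (e n) y hj
    refine ⟨n, ?_, ?_⟩
    · exact ⟨T (e n) (F (e n) y) ∩ u, ⟨F (e n) y, h3, u, hu, rfl⟩, hTs _ y hj, hyu⟩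
    · refine (h1.image (fun u => T (e n) (F (e n) y) ∩ u)).subset ?_
      rintro v ⟨⟨A, hA, u', hu', rfl⟩, hyT, hyu'⟩
      have := hTm _ _ y hj hyT
      subst this
      exact ⟨u', hu', rfl⟩

/-- The states of the recursion: `(B, C)`. -/
def stepB {X : Type u} {Y : Type v} [TopologicalSpace X] (nn : Set X → Y → ℕ)
    (xx : Set X → Y → X) (μ : ℕ → X → Set Y) (n : ℕ) (s : Set X × Set Y) : Set X :=
  {z | ∀ N : Set X, IsOpen N → z ∈ N → ∃ y ∈ s.2, ∃ y' ∈ s.2, nn s.1 y = n ∧ nn s.1 y' = n ∧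
    xx s.1 y ∈ N ∧ xx s.1 y' ∈ N ∧ μ n (xx s.1 y) ≠ μ n (xx s.1 y')}

/-- The state after the path `p` (the last step first). -/
def state {X : Type u} {Y : Type v} [TopologicalSpace X] (f : X → Y) (nn : Set X → Y → ℕ)
    (xx : Set X → Y → X) (μ : ℕ → X → Set Y) : List ℕ → Set X × Set Y
  | [] => (univ, univ)
  | n :: p => (stepB nn xx μ n (state f nn xx μ p),
      {y | y ∈ (state f nn xx μ p).2 ∧ nn (state f nn xx μ p).1 y = n ∧
        (f ⁻¹' {y} ∩ stepB nn xx μ n (state f nn xx μ p)).Nonempty})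

theorem isClosed_stepB {X : Type u} {Y : Type v} [TopologicalSpace X] (nn : Set X → Y → ℕ)
    (xx : Set X → Y → X) (μ : ℕ → X → Set Y) (n : ℕ) (s : Set X × Set Y) :
    IsClosed (stepB nn xx μ n s) := by
  rw [← isOpen_compl_iff, isOpen_iff_forall_mem_open]
  intro z hz
  have hz' : ¬ ∀ N : Set X, IsOpen N → z ∈ N → ∃ y ∈ s.2, ∃ y' ∈ s.2, nn s.1 y = n ∧
    nn s.1 y' = n ∧ xx s.1 y ∈ N ∧ xx s.1 y' ∈ N ∧ μ n (xx s.1 y) ≠ μ n (xx s.1 y') := hz
  push Not at hz'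
  obtain ⟨N, hN, hzN, h⟩ := hz'
  refine ⟨N, ?_, hN, hzN⟩
  intro z' hz'N hcon
  obtain ⟨y, hy, y', hy', h1, h2, h3, h4, h5⟩ := hcon N hN hz'N
  exact h5 (h y hy y' hy' h1 h2 h3 h4)

theorem perfect_image {X : Type u} {Y : Type v} [TopologicalSpace X] [TopologicalSpace Y]
    (f : X → Y) (hcont : Continuous f) (hsurj : Function.Surjective f) (hclosed : IsClosedMap f)
    (hcomp : ∀ y, IsCompact (f ⁻¹' {y})) (hX : WeaklyThetaRefinable X) :
    WeaklyThetaRefinable Y := by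
  classical
  intro U hU hcov
  obtain ⟨G, lam, hG, hlam, hLC⟩ := exists_labels hX {v | ∃ u ∈ U, v = f ⁻¹' u}
    (by rintro v ⟨u, hu, rfl⟩; exact (hU u hu).preimage hcont)
    (by
      rw [eq_univ_iff_forall]
      intro x
      obtain ⟨u, hu, hxu⟩ := (eq_univ_iff_forall.mp hcov) (f x)
      exact ⟨f ⁻¹' u, ⟨u, hu, rfl⟩, hxu⟩)
  -- the labels in `Y`
  obtain ⟨μ, hμ⟩ : ∃ μ : ℕ → X → Set Y, ∀ n x, μ n x = f '' (lam n x) := ⟨_, fun _ _ => rfl⟩
  have hμ1 : ∀ n, ∀ x ∈ G n, μ n x ∈ U ∧ f x ∈ μ n x := by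
    intro n x hx
    obtain ⟨⟨u, hu, h1⟩, h2⟩ := hlam n x hx
    rw [hμ, h1, image_preimage_eq _ hsurj]
    refine ⟨hu, ?_⟩
    rw [h1] at h2
    exact h2
  have hμ2 : ∀ n, LC (G n) (μ n) := by
    intro n x hx
    obtain ⟨O, h1, h2, h3⟩ := hLC n x hx
    refine ⟨O, h1, h2, fun x' hx' hG' => ?_⟩
    rw [hμ, hμ, h3 x' hx' hG']
  -- the least number and the point
  have hch : ∀ (B : Set X) (y : Y), ∃ (n : ℕ) (x : X), (f ⁻¹' {y} ∩ B).Nonempty →
      (f x = y ∧ x ∈ B ∧ x ∈ G n ∧ ∀ m, ∀ z, f z = y → z ∈ B → z ∈ G m → n ≤ m) := by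
    intro B y
    by_cases hne : (f ⁻¹' {y} ∩ B).Nonempty
    · have hex : ∃ n, ∃ x, f x = y ∧ x ∈ B ∧ x ∈ G n := by
        obtain ⟨x, hx1, hx2⟩ := hne
        obtain ⟨n, hn⟩ := hG x
        exact ⟨n, x, hx1, hx2, hn⟩
      obtain ⟨x, hx1, hx2, hx3⟩ := Nat.find_spec hex
      refine ⟨Nat.find hex, x, fun _ => ⟨hx1, hx2, hx3, ?_⟩⟩
      intro m z hz1 hz2 hz3
      exact Nat.find_min' hex ⟨z, hz1, hz2, hz3⟩
    · obtain ⟨x, _⟩ := hsurj y
      exact ⟨0, x, fun h => absurd h hne⟩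
  choose nn xx hnx using hch
  obtain ⟨S, hS⟩ : ∃ S : List ℕ → Set X × Set Y, S = state f nn xx μ := ⟨_, rfl⟩
  have hS0 : S [] = (univ, univ) := by rw [hS]; rfl
  have hS1 : ∀ n p, (S (n :: p)).1 = stepB nn xx μ n (S p) := by
    intro n p
    rw [hS]
    rfl
  have hS2 : ∀ n p, (S (n :: p)).2 = {y | y ∈ (S p).2 ∧ nn (S p).1 y = n ∧
      (f ⁻¹' {y} ∩ stepB nn xx μ n (S p)).Nonempty} := by
    intro n p
    rw [hS]
    rfl
  -- fibres of the points of a state meet the closed set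
  have hmeet : ∀ p, ∀ y ∈ (S p).2, (f ⁻¹' {y} ∩ (S p).1).Nonempty := by
    intro p
    cases p with
    | nil =>
      intro y _
      rw [hS0]
      obtain ⟨x, hx⟩ := hsurj y
      exact ⟨x, hx, mem_univ _⟩
    | cons n p =>
      intro y hy
      rw [hS2] at hy
      rw [hS1]
      exact hy.2.2
  have hclosedS : ∀ p, IsClosed (S p).1 := by
    intro p
    cases p with
    | nil => rw [hS0]; exact isClosed_univ
    | cons n p => rw [hS1]; exact isClosed_stepB _ _ _ _ _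
  -- disjointness
  have hdisj : ∀ n p z, z ∈ stepB nn xx μ n (S p) → z ∉ G n := by
    intro n p z hz hzG
    obtain ⟨O, h1, h2, h3⟩ := hμ2 n z hzG
    obtain ⟨y, hy, y', hy', g1, g2, g3, g4, g5⟩ := hz O h1 h2
    have k1 := (hnx (S p).1 y (hmeet p y hy)).2.2.1
    have k2 := (hnx (S p).1 y' (hmeet p y' hy')).2.2.1
    rw [g1] at k1
    rw [g2] at k2
    exact g5 ((h3 _ g3 k1).trans (h3 _ g4 k2).symm)
  -- monotonicity
  have hmono : ∀ n p, stepB nn xx μ n (S p) ⊆ (S p).1 := by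
    intro n p z hz
    rw [← (hclosedS p).closure_eq]
    rw [mem_closure_iff]
    intro N hN hzN
    obtain ⟨y, hy, y', hy', g1, g2, g3, g4, g5⟩ := hz N hN hzN
    exact ⟨xx (S p).1 y, g3, (hnx (S p).1 y (hmeet p y hy)).2.1⟩
  -- every point stops
  have hstop : ∀ y, ∃ p : List ℕ, y ∈ (S p).2 ∧
      ¬ (f ⁻¹' {y} ∩ stepB nn xx μ (nn (S p).1 y) (S p)).Nonempty := by
    intro y
    by_contra hcon
    push Not at hcon
    obtain ⟨P, hP0, hP1⟩ : ∃ P : ℕ → List ℕ, P 0 = [] ∧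
        ∀ i, P (i + 1) = nn (S (P i)).1 y :: P i :=
      ⟨fun i => Nat.rec [] (fun _ q => nn (S q).1 y :: q) i, rfl, fun _ => rfl⟩
    have hPy : ∀ i, y ∈ (S (P i)).2 := by
      intro i
      induction i with
      | zero => rw [hP0, hS0]; exact mem_univ _
      | succ i ih =>
        rw [hP1, hS2]
        exact ⟨ih, rfl, hcon _ ih⟩
    have hPsub : ∀ i j, i ≤ j → (S (P j)).1 ⊆ (S (P i)).1 := by
      intro i j hij
      induction j, hij using Nat.le_induction with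
      | base => exact subset_rfl
      | succ j _ ih =>
        rw [hP1, hS1]
        exact (hmono _ _).trans ih
    have hne : (f ⁻¹' {y} ∩ ⋂ i, (S (P i)).1).Nonempty := by
      apply (hcomp y).inter_iInter_nonempty _ (fun i => hclosedS _)
      intro t
      obtain ⟨z, hz1, hz2⟩ := hmeet (P (t.sup id)) y (hPy _)
      refine ⟨z, hz1, ?_⟩
      rw [mem_iInter₂]
      intro i hi
      exact hPsub i _ (Finset.le_sup (f := id) hi) hz2
    obtain ⟨z, hz1, hz2⟩ := hne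
    rw [mem_iInter] at hz2
    obtain ⟨m, hm⟩ := hG z
    have hle : ∀ i, nn (S (P i)).1 y ≤ m := fun i =>
      (hnx _ y (hmeet _ y (hPy i))).2.2.2 m z hz1 (hz2 i) hm
    have hinj : ∀ i j, i < j → nn (S (P i)).1 y ≠ nn (S (P j)).1 y := by
      intro i j hij heq
      obtain ⟨k1, k2, k3, _⟩ := hnx _ y (hmeet _ y (hPy j))
      have k4 := hPsub (i + 1) j hij k2
      rw [hP1, hS1] at k4
      apply hdisj _ _ _ k4
      rw [heq]
      exact k3
    have hinj' : Function.Injective (fun i : ℕ => (⟨nn (S (P i)).1 y,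
        Nat.lt_succ_of_le (hle i)⟩ : Fin (m + 1))) := by
      intro i j hij
      have h1 : nn (S (P i)).1 y = nn (S (P j)).1 y := congrArg Fin.val hij
      rcases lt_trichotomy i j with h | h | h
      · exact absurd h1 (hinj i j h)
      · exact h
      · exact absurd h1.symm (hinj j i h)
    exact not_injective_infinite_finite _ hinj'
  -- the harmless points
  obtain ⟨D, hD⟩ : ∃ D : List ℕ × ℕ → Set Y, ∀ q, D q = {y | y ∈ (S q.1).2 ∧
      nn (S q.1).1 y = q.2 ∧ ¬ (f ⁻¹' {y} ∩ stepB nn xx μ q.2 (S q.1)).Nonempty} :=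
    ⟨_, fun _ => rfl⟩
  have hfinlab : ∀ q : List ℕ × ℕ, ∀ y ∈ D q, ∃ W : Set Y, IsOpen W ∧ y ∈ W ∧
      ((fun y' => μ q.2 (xx (S q.1).1 y')) '' (D q ∩ W)).Finite := by
    rintro ⟨p, n⟩ y hy
    rw [hD] at hy
    obtain ⟨hy1, hy2, hy3⟩ := hy
    have hN : ∀ z : X, ∃ N : Set X, IsOpen N ∧ (z ∈ f ⁻¹' {y} → z ∈ N ∧
        ((fun y' => μ n (xx (S p).1 y')) '' {y' | y' ∈ (S p).2 ∧ nn (S p).1 y' = n ∧
          xx (S p).1 y' ∈ N}).Subsingleton) := by
      intro z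
      by_cases hz : z ∈ f ⁻¹' {y}
      · have h1 : z ∉ stepB nn xx μ n (S p) := fun h => hy3 ⟨z, hz, h⟩
        have hz' : ¬ ∀ N : Set X, IsOpen N → z ∈ N → ∃ y ∈ (S p).2, ∃ y' ∈ (S p).2,
            nn (S p).1 y = n ∧ nn (S p).1 y' = n ∧ xx (S p).1 y ∈ N ∧ xx (S p).1 y' ∈ N ∧
            μ n (xx (S p).1 y) ≠ μ n (xx (S p).1 y') := h1
        push Not at hz'
        obtain ⟨N, hN, hzN, h⟩ := hz'
        refine ⟨N, hN, fun _ => ⟨hzN, ?_⟩⟩
        rintro _ ⟨y1, ⟨a1, a2, a3⟩, rfl⟩ _ ⟨y2, ⟨b1, b2, b3⟩, rfl⟩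
        exact h y1 a1 y2 b1 a2 b2 a3 b3
      · exact ⟨∅, isOpen_empty, fun h => absurd h hz⟩
    choose N hN1 hN2 using hN
    obtain ⟨t, ht1, ht2⟩ := (hcomp y).elim_nhds_subcover N
      (fun z hz => (hN1 z).mem_nhds (hN2 z hz).1)
    -- the neighbourhood
    have hWopen : IsOpen (f '' (⋃ z ∈ t, N z)ᶜ)ᶜ := by
      rw [isOpen_compl_iff]
      apply hclosed
      rw [isClosed_compl_iff]
      exact isOpen_biUnion (fun z _ => hN1 z)
    refine ⟨(f '' (⋃ z ∈ t, N z)ᶜ)ᶜ, hWopen, ?_, ?_⟩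
    · rintro ⟨x, hx, hxy⟩
      exact hx (ht2 hxy)
    · have hfin : (⋃ z ∈ t, ((fun y' => μ n (xx (S p).1 y')) '' {y' | y' ∈ (S p).2 ∧
          nn (S p).1 y' = n ∧ xx (S p).1 y' ∈ N z})).Finite := by
        apply t.finite_toSet.biUnion
        intro z hz
        exact (hN2 z (ht1 z hz)).2.finite
      refine hfin.subset ?_
      rintro _ ⟨y', ⟨hy'D, hy'W⟩, rfl⟩
      rw [hD] at hy'D
      obtain ⟨c1, c2, _⟩ := hy'D
      have hx' : xx (S p).1 y' ∈ ⋃ z ∈ t, N z := by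
        by_contra hcon
        exact hy'W ⟨xx (S p).1 y', hcon, (hnx _ y' (hmeet p y' c1)).1⟩
      obtain ⟨z, hz, hxz⟩ := mem_iUnion₂.mp hx'
      exact mem_iUnion₂.mpr ⟨z, hz, y', ⟨c1, c2, hxz⟩, rfl⟩
  choose F hF1 hF2 using fun q : List ℕ × ℕ => refine_labels (D q)
    (fun y' => μ q.2 (xx (S q.1).1 y')) (hfinlab q)
  -- the properties of the labels
  have hμD : ∀ q : List ℕ × ℕ, ∀ y ∈ D q, μ q.2 (xx (S q.1).1 y) ∈ U ∧
      y ∈ μ q.2 (xx (S q.1).1 y) := by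
    intro q y hy
    rw [hD] at hy
    obtain ⟨h1, h2, _⟩ := hy
    obtain ⟨k1, _, k3, _⟩ := hnx _ y (hmeet q.1 y h1)
    rw [h2] at k3
    obtain ⟨k4, k5⟩ := hμ1 q.2 _ k3
    refine ⟨k4, ?_⟩
    rw [k1] at k5
    exact k5
  refine of_labels (J := (List ℕ × ℕ) × ℕ) U hU
    (fun j => {y | y ∈ D j.1 ∧ (F j.1 y).ncard = j.2}) (fun j => F j.1) ?_ ?_ ?_
  · intro y
    obtain ⟨p, hp1, hp2⟩ := hstop y
    refine ⟨((p, nn (S p).1 y), (F (p, nn (S p).1 y) y).ncard), ?_, rfl⟩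
    rw [hD]
    exact ⟨hp1, rfl, hp2⟩
  · rintro j y ⟨hy, _⟩
    obtain ⟨h1, h2, h3⟩ := hF1 j.1 y hy
    refine ⟨h1, ⟨_, h2, (hμD j.1 y hy).2⟩, ?_⟩
    intro l hl
    obtain ⟨y', hy', rfl⟩ := h3 hl
    exact (hμD j.1 y' hy').1
  · intro j
    exact hF2 j.1 j.2

/-- **Positive answer to Q2.** Every perfect image of a weakly θ-refinable space is weakly
θ-refinable (no separation axioms are assumed). -/
theorem result : ∀ (X : Type u) (Y : Type v) [TopologicalSpace X] [TopologicalSpace Y]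
    (f : X → Y), Continuous f → Function.Surjective f → IsClosedMap f →
    (∀ y, IsCompact (f ⁻¹' {y})) → WeaklyThetaRefinable X → WeaklyThetaRefinable Y := by
  intro X Y _ _ f h1 h2 h3 h4 h5
  exact perfect_image f h1 h2 h3 h4 h5

end Pool.Agent.Results.MP_55e6a3_gt.PerfectImage
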